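import Pool.Agent.H75.L.W662.CB.Stmts

set_option autoImplicit false

open MeasureTheory Filter Topology Complex
open scoped InnerProductSpace ENNReal

namespace Pool.Agent.W561.CB

open Pool.Agent.W662.CB

noncomputable section

/-! ### Averages -/

theorem av_add {α : Type} [Fintype α] (f g : α → ℝ) :
    av (fun x => f x + g x) = av f + av g := by
  unfold av
  rw [Finset.sum_add_distrib, mul_add]

theorem av_sum {α ι : Type} [Fintype α] (s : Finset ι) (f : ι → α → ℝ) :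
    av (fun x => ∑ i ∈ s, f i x) = ∑ i ∈ s, av (f i) := by
  unfold av
  rw [Finset.sum_comm, Finset.mul_sum]

theorem av_mono {α : Type} [Fintype α] {f g : α → ℝ} (h : ∀ x, f x ≤ g x) : av f ≤ av g := by
  unfold av
  exact mul_le_mul_of_nonneg_left (Finset.sum_le_sum fun x _ => h x) (by positivity)

theorem av_zero {α : Type} [Fintype α] : av (fun _ : α => (0 : ℝ)) = 0 := by
  unfold av
  simp

theorem av_le {α : Type} [Fintype α] {f : α → ℝ} {c : ℝ} (hc : 0 ≤ c) (h : ∀ x, f x ≤ c) :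
    av f ≤ c := by
  unfold av
  have h1 : ∑ x, f x ≤ (Fintype.card α : ℝ) * c := by
    calc ∑ x, f x ≤ ∑ _x : α, c := Finset.sum_le_sum fun x _ => h x
      _ = (Fintype.card α : ℝ) * c := by rw [Finset.sum_const, nsmul_eq_mul]; rfl
  calc (Fintype.card α : ℝ)⁻¹ * ∑ x, f x
      ≤ (Fintype.card α : ℝ)⁻¹ * ((Fintype.card α : ℝ) * c) :=
        mul_le_mul_of_nonneg_left h1 (by positivity)
    _ = ((Fintype.card α : ℝ)⁻¹ * (Fintype.card α : ℝ)) * c := by ring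
    _ ≤ 1 * c := mul_le_mul_of_nonneg_right (by
        by_cases h0 : (Fintype.card α : ℝ) = 0
        · rw [h0]; norm_num
        · rw [inv_mul_cancel₀ h0]) hc
    _ = c := one_mul c

/-- Averaging over one more coordinate. -/
theorem av_update {ι : Type} [Fintype ι] [DecidableEq ι] (K : ℕ) (hK : 0 < K)
    (f : (ι → Fin K) → ℝ) (m : ι) :
    av f = av (fun k => (K : ℝ)⁻¹ * ∑ j : Fin K, f (Function.update k m j)) := by
  have key : ∑ k : ι → Fin K, ∑ j : Fin K, f (Function.update k m j) =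
      (K : ℝ) * ∑ k : ι → Fin K, f k := by
    rw [← Equiv.sum_comp (Equiv.funSplitAt m (Fin K)).symm
        (fun k : ι → Fin K => ∑ j : Fin K, f (Function.update k m j)),
      ← Equiv.sum_comp (Equiv.funSplitAt m (Fin K)).symm f, Fintype.sum_prod_type,
      Fintype.sum_prod_type]
    have h1 : ∀ (a : Fin K) (r : {j : ι // j ≠ m} → Fin K) (j : Fin K),
        Function.update ((Equiv.funSplitAt m (Fin K)).symm (a, r)) m j =
          (Equiv.funSplitAt m (Fin K)).symm (j, r) := by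
      intro a r j
      funext i
      by_cases hi : i = m
      · subst hi
        simp [Equiv.funSplitAt]
      · simp [Equiv.funSplitAt, hi]
    simp only [h1]
    rw [Finset.sum_const, Finset.card_univ, Fintype.card_fin, nsmul_eq_mul]
    congr 1
    rw [Finset.sum_comm]
  unfold av
  rw [← Finset.mul_sum, key]
  have hK' : (K : ℝ) ≠ 0 := by exact_mod_cast hK.ne'
  field_simp

/-! ### The unitaries -/

section

variable {H : Type} [NormedAddCommGroup H] [InnerProductSpace ℂ H] [CompleteSpace H]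
  {M : VonNeumannAlgebra H} {ξ : H} {U : ℝ → H →L[ℂ] H}

theorem U_norm (h : IsModular M ξ U) (t : ℝ) (v : H) : ‖U t v‖ = ‖v‖ := by
  have h1 : star (U t) * U t = 1 := by
    rw [h.star_eq, ← h.add, neg_add_cancel, h.zero]
  exact (ContinuousLinearMap.norm_map_iff_adjoint_comp_self (U t)).2 h1 v

theorem star_sgm (t : ℝ) (x : H →L[ℂ] H) : star (sgm U t x) = sgm U t (star x) := by
  unfold sgm
  rw [star_mul, star_mul, star_star, mul_assoc]

theorem sgm_mul (h : IsModular M ξ U) (t : ℝ) (x y : H →L[ℂ] H) :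
    sgm U t x * sgm U t y = sgm U t (x * y) := by
  have h1 : star (U t) * U t = 1 := by
    rw [h.star_eq, ← h.add, neg_add_cancel, h.zero]
  unfold sgm
  calc U t * x * star (U t) * (U t * y * star (U t))
      = U t * x * (star (U t) * U t) * y * star (U t) := by noncomm_ring
    _ = U t * (x * y) * star (U t) := by rw [h1]; noncomm_ring

theorem sgm_xi (h : IsModular M ξ U) (t : ℝ) (x : H →L[ℂ] H) : sgm U t x ξ = U t (x ξ) := by
  unfold sgm
  rw [h.star_eq]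
  change U t (x (U (-t) ξ)) = _
  rw [h.fix]

theorem norm_sgm_apply (h : IsModular M ξ U) (t : ℝ) (x : H →L[ℂ] H) (u : H) :
    ‖sgm U t x u‖ = ‖x (U (-t) u)‖ := by
  unfold sgm
  rw [h.star_eq]
  change ‖U t (x (U (-t) u))‖ = _
  rw [U_norm h]

end

/-! ### Row and column contractions -/

section

variable {H : Type} [NormedAddCommGroup H] [InnerProductSpace ℂ H] [CompleteSpace H]

theorem norm_le_one_of_col {F : Finset ℤ} {C : ℤ → H →L[ℂ] H}
    (h1 : ∀ v : H, ∑ m ∈ F, ‖C m v‖ ^ 2 ≤ ‖v‖ ^ 2) {m : ℤ} (hm : m ∈ F) : ‖C m‖ ≤ 1 := by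
  refine ContinuousLinearMap.opNorm_le_bound _ zero_le_one fun v => ?_
  have h2 : ‖C m v‖ ^ 2 ≤ ∑ m ∈ F, ‖C m v‖ ^ 2 :=
    Finset.single_le_sum (f := fun m => ‖C m v‖ ^ 2) (fun i _ => sq_nonneg _) hm
  have h3 : ‖C m v‖ ^ 2 ≤ ‖v‖ ^ 2 := h2.trans (h1 v)
  rw [one_mul]
  exact (sq_le_sq₀ (norm_nonneg _) (norm_nonneg _)).1 h3

theorem norm_colsum_le {F : Finset ℤ} {C : ℤ → H →L[ℂ] H}
    (h1 : ∀ v : H, ∑ m ∈ F, ‖C m v‖ ^ 2 ≤ ‖v‖ ^ 2) {ξ : H} (hξ : ‖ξ‖ = 1) :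
    ‖∑ m ∈ F, star (C m) (C m ξ)‖ ^ 2 ≤ 1 := by
  set y : H := ∑ m ∈ F, star (C m) (C m ξ) with hy
  have h2 : ‖y‖ ^ 2 ≤ ∑ m ∈ F, ‖C m ξ‖ * ‖C m y‖ := by
    have h3 : ⟪y, y⟫_ℂ = ∑ m ∈ F, ⟪C m ξ, C m y⟫_ℂ := by
      conv_lhs => rw [hy, sum_inner]
      refine Finset.sum_congr rfl fun m _ => ?_
      rw [ContinuousLinearMap.star_eq_adjoint, ContinuousLinearMap.adjoint_inner_left]
    have h4 : ‖⟪y, y⟫_ℂ‖ = ‖y‖ ^ 2 := by
      rw [inner_self_eq_norm_sq_to_K]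
      simp
    rw [← h4, h3]
    refine (norm_sum_le _ _).trans (Finset.sum_le_sum fun m _ => ?_)
    exact norm_inner_le_norm _ _
  have h5 : (∑ m ∈ F, ‖C m ξ‖ * ‖C m y‖) ^ 2 ≤ (∑ m ∈ F, ‖C m ξ‖ ^ 2) * ∑ m ∈ F, ‖C m y‖ ^ 2 :=
    Finset.sum_mul_sq_le_sq_mul_sq _ _ _
  have h6 : (∑ m ∈ F, ‖C m ξ‖ ^ 2) * ∑ m ∈ F, ‖C m y‖ ^ 2 ≤ 1 * ‖y‖ ^ 2 := by
    refine mul_le_mul ?_ (h1 y) (Finset.sum_nonneg fun i _ => sq_nonneg _) zero_le_one
    have := h1 ξ
    rw [hξ] at this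
    simpa using this
  have h7 : (‖y‖ ^ 2) ^ 2 ≤ ‖y‖ ^ 2 := by
    have h8 : (‖y‖ ^ 2) ^ 2 ≤ (∑ m ∈ F, ‖C m ξ‖ * ‖C m y‖) ^ 2 :=
      pow_le_pow_left₀ (sq_nonneg _) h2 2
    linarith [h8.trans (h5.trans h6)]
  by_contra hc
  push Not at hc
  nlinarith [sq_nonneg (‖y‖ ^ 2 - 1)]

end

/-! ### The key estimate -/

section

variable {H : Type} [NormedAddCommGroup H] [InnerProductSpace ℂ H] [CompleteSpace H]
  {M : VonNeumannAlgebra H} {ξ : H} {U : ℝ → H →L[ℂ] H}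

/-- `∑_m av_j ‖D_m(j)^* u‖² ≤ 2 ‖u‖²`. -/
theorem row_bound (h : IsModular M ξ U) {T : ℝ} {F : Finset ℤ} {C : ℤ → H →L[ℂ] H} {n0 : ℕ}
    (hn0 : ∀ m ∈ F, |m| ≤ (n0 : ℤ))
    (h2 : ∀ v : H, ∑ m ∈ F, ‖star (C m) (U ((m : ℝ) * T) v)‖ ^ 2 ≤ ‖v‖ ^ 2) (u : H) :
    ∑ m ∈ F, ((2 * n0 + 1 : ℕ) : ℝ)⁻¹ * ∑ j : Fin (2 * n0 + 1),
      ‖sgm U (((j : ℕ) : ℝ) * T) (star (C m)) u‖ ^ 2 ≤ 2 * ‖u‖ ^ 2 := by
  set g : ℤ → ℤ → ℝ := fun m l =>
    ‖star (C m) (U ((m : ℝ) * T) (U (-((l : ℝ) * T)) u))‖ ^ 2 with hg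
  have hterm : ∀ (m : ℤ) (j : Fin (2 * n0 + 1)),
      ‖sgm U (((j : ℕ) : ℝ) * T) (star (C m)) u‖ ^ 2 = g m (((j : ℕ) : ℤ) + m) := by
    intro m j
    rw [norm_sgm_apply h, hg]
    have h3 : U (-(((j : ℕ) : ℝ) * T)) =
        U ((m : ℝ) * T) * U (-(((((j : ℕ) : ℤ) + m : ℤ) : ℝ) * T)) := by
      rw [← h.add]
      congr 1
      push_cast
      ring
    simp only
    rw [h3]
    rfl
  have hgn : ∀ m l, 0 ≤ g m l := fun m l => sq_nonneg _
  have hin : ∀ m ∈ F, ∑ j : Fin (2 * n0 + 1), g m (((j : ℕ) : ℤ) + m) ≤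
      ∑ l ∈ Finset.Icc (-(n0 : ℤ)) (3 * n0), g m l := by
    intro m hm
    have hm' := abs_le.1 (hn0 m hm)
    have hinj : Function.Injective (fun j : Fin (2 * n0 + 1) => ((j : ℕ) : ℤ) + m) := by
      intro a b hab
      have : ((a : ℕ) : ℤ) = ((b : ℕ) : ℤ) := by
        simpa using hab
      exact Fin.ext (by exact_mod_cast this)
    rw [← Finset.sum_image (f := fun l => g m l) (g := fun j : Fin (2 * n0 + 1) => ((j : ℕ) : ℤ) + m)
      (fun a _ b _ hab => hinj hab)]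
    refine Finset.sum_le_sum_of_subset_of_nonneg ?_ (fun l _ _ => hgn m l)
    intro l hl
    rw [Finset.mem_image] at hl
    obtain ⟨j, -, rfl⟩ := hl
    have hj := j.2
    rw [Finset.mem_Icc]
    constructor
    · have : (0 : ℤ) ≤ ((j : ℕ) : ℤ) := by positivity
      linarith [hm'.1]
    · have : ((j : ℕ) : ℤ) ≤ 2 * n0 := by
        have h5 : (j : ℕ) ≤ 2 * n0 := by omega
        exact_mod_cast h5
      linarith [hm'.2]
  have hsum : ∀ l : ℤ, ∑ m ∈ F, g m l ≤ ‖u‖ ^ 2 := by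
    intro l
    refine (h2 (U (-((l : ℝ) * T)) u)).trans ?_
    rw [U_norm h]
  calc ∑ m ∈ F, ((2 * n0 + 1 : ℕ) : ℝ)⁻¹ * ∑ j : Fin (2 * n0 + 1),
        ‖sgm U (((j : ℕ) : ℝ) * T) (star (C m)) u‖ ^ 2
      = ((2 * n0 + 1 : ℕ) : ℝ)⁻¹ * ∑ m ∈ F, ∑ j : Fin (2 * n0 + 1), g m (((j : ℕ) : ℤ) + m) := by
        rw [Finset.mul_sum]
        refine Finset.sum_congr rfl fun m _ => ?_
        congr 1
        exact Finset.sum_congr rfl fun j _ => hterm m j
    _ ≤ ((2 * n0 + 1 : ℕ) : ℝ)⁻¹ * ∑ m ∈ F, ∑ l ∈ Finset.Icc (-(n0 : ℤ)) (3 * n0), g m l :=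
        mul_le_mul_of_nonneg_left (Finset.sum_le_sum hin) (by positivity)
    _ = ((2 * n0 + 1 : ℕ) : ℝ)⁻¹ * ∑ l ∈ Finset.Icc (-(n0 : ℤ)) (3 * n0), ∑ m ∈ F, g m l := by
        rw [Finset.sum_comm]
    _ ≤ ((2 * n0 + 1 : ℕ) : ℝ)⁻¹ * ∑ _l ∈ Finset.Icc (-(n0 : ℤ)) (3 * n0), ‖u‖ ^ 2 :=
        mul_le_mul_of_nonneg_left (Finset.sum_le_sum fun l _ => hsum l) (by positivity)
    _ = ((2 * n0 + 1 : ℕ) : ℝ)⁻¹ * ((4 * n0 + 1 : ℕ) * ‖u‖ ^ 2) := by
        rw [Finset.sum_const, Int.card_Icc, nsmul_eq_mul]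
        congr 3
        omega
    _ ≤ 2 * ‖u‖ ^ 2 := by
        have h5 : (0 : ℝ) < ((2 * n0 + 1 : ℕ) : ℝ) := by positivity
        rw [inv_mul_le_iff₀ h5]
        push_cast
        nlinarith [sq_nonneg ‖u‖]

end

theorem c4 (h1 : S_C2) (h3 : S_C3) : S_C4 := by
  intro H _ _ _ M ξ U hU hξ T F C hcol hrow
  classical
  -- the bound for the indices
  obtain ⟨n0, hn0⟩ : ∃ n0 : ℕ, ∀ m ∈ F, |m| ≤ (n0 : ℤ) := by
    refine ⟨∑ m ∈ F, m.natAbs, fun m hm => ?_⟩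
    have h4 : m.natAbs ≤ ∑ m ∈ F, m.natAbs :=
      Finset.single_le_sum (f := fun m : ℤ => m.natAbs) (fun i _ => Nat.zero_le _) hm
    rw [Int.abs_eq_natAbs]
    exact_mod_cast h4
  set K : ℕ := 2 * n0 + 1 with hK
  have hKpos : 0 < K := by omega
  have hK0 : (K : ℝ) ≠ 0 := by exact_mod_cast hKpos.ne'
  have hK0c : (K : ℂ) ≠ 0 := by exact_mod_cast hKpos.ne'
  refine ⟨K, hKpos, ?_⟩
  set D : F → Fin K → H →L[ℂ] H := fun m j => sgm U (((j : ℕ) : ℝ) * T) (C m) with hD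
  -- expansion
  have hexp : ∀ (k : F → Fin K) (e : F → Fin 4),
      (star (fold U T F K C e k) * fold U T F K C e k) ξ =
      ∑ m : F, ∑ n : F, ((starRingEnd ℂ (I ^ (e m : ℕ))) * I ^ (e n : ℕ)) •
        (star (D m (k m)) (D n (k n) ξ)) := by
    intro k e
    unfold fold
    rw [star_sum, Finset.sum_mul]
    rw [ContinuousLinearMap.sum_apply]
    refine Finset.sum_congr rfl fun m _ => ?_
    rw [Finset.mul_sum, ContinuousLinearMap.sum_apply]
    refine Finset.sum_congr rfl fun n _ => ?_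
    rw [star_smul, smul_mul_smul_comm]
    rfl
  have hinner : ∀ k : F → Fin K, av (fun e : F → Fin 4 =>
      ‖(star (fold U T F K C e k) * fold U T F K C e k) ξ‖ ^ 2) =
      ‖∑ m : F, star (D m (k m)) (D m (k m) ξ)‖ ^ 2 +
      ∑ m : F, ∑ n : F, (if m = n then 0 else ‖star (D m (k m)) (D n (k n) ξ)‖ ^ 2) := by
    intro k
    have h4 := h1 H F (fun m n => star (D m (k m)) (D n (k n) ξ))
    rw [← h4]
    congr 1
    funext e
    rw [hexp k e]
  have hmain : av (fun k : F → Fin K => av (fun e : F → Fin 4 =>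
      ‖(star (fold U T F K C e k) * fold U T F K C e k) ξ‖ ^ 2)) =
      av (fun k : F → Fin K => ‖∑ m : F, star (D m (k m)) (D m (k m) ξ)‖ ^ 2) +
      av (fun k : F → Fin K => ∑ m : F, ∑ n : F,
        (if m = n then 0 else ‖star (D m (k m)) (D n (k n) ξ)‖ ^ 2)) := by
    rw [← av_add]
    congr 1
    funext k
    exact hinner k
  rw [hmain]
  -- the diagonal part
  have hX : ∀ (m : F) (j : Fin K), star (D m j) (D m j ξ) =
      U (((j : ℕ) : ℝ) * T) (star (C m) (C m ξ)) := by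
    intro m j
    have h4 : star (D m j) * D m j = sgm U (((j : ℕ) : ℝ) * T) (star (C m) * C m) := by
      rw [hD]
      simp only
      rw [star_sgm, sgm_mul hU]
    calc star (D m j) (D m j ξ) = (star (D m j) * D m j) ξ := rfl
      _ = _ := by rw [h4, sgm_xi hU]; rfl
  have hdiag : av (fun k : F → Fin K => ‖∑ m : F, star (D m (k m)) (D m (k m) ξ)‖ ^ 2) ≤ 2 := by
    have h4 := h3 H F K hKpos (fun m j => star (D m j) (D m j ξ))
    refine h4.trans ?_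
    have h5 : ‖∑ m : F, ((K : ℂ)⁻¹ • ∑ j : Fin K, star (D m j) (D m j ξ))‖ ^ 2 ≤ 1 := by
      set y : H := ∑ m ∈ F, star (C m) (C m ξ) with hy
      have h6 : ∑ m : F, ((K : ℂ)⁻¹ • ∑ j : Fin K, star (D m j) (D m j ξ)) =
          (K : ℂ)⁻¹ • ∑ j : Fin K, U (((j : ℕ) : ℝ) * T) y := by
        rw [← Finset.smul_sum, Finset.sum_comm]
        congr 1
        refine Finset.sum_congr rfl fun j _ => ?_
        rw [hy, map_sum, ← Finset.sum_coe_sort F]
        exact Finset.sum_congr rfl fun m _ => hX m j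
      have h7 : ‖(K : ℂ)⁻¹ • ∑ j : Fin K, U (((j : ℕ) : ℝ) * T) y‖ ≤ ‖y‖ := by
        rw [norm_smul, norm_inv, Complex.norm_natCast]
        have h8 : ‖∑ j : Fin K, U (((j : ℕ) : ℝ) * T) y‖ ≤ (K : ℝ) * ‖y‖ := by
          refine (norm_sum_le _ _).trans ?_
          rw [Finset.sum_congr rfl fun j _ => U_norm hU _ y]
          rw [Finset.sum_const, Finset.card_univ, Fintype.card_fin, nsmul_eq_mul]
        calc (K : ℝ)⁻¹ * ‖∑ j : Fin K, U (((j : ℕ) : ℝ) * T) y‖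
            ≤ (K : ℝ)⁻¹ * ((K : ℝ) * ‖y‖) := mul_le_mul_of_nonneg_left h8 (by positivity)
          _ = ‖y‖ := by rw [← mul_assoc, inv_mul_cancel₀ hK0, one_mul]
      rw [h6]
      calc ‖(K : ℂ)⁻¹ • ∑ j : Fin K, U (((j : ℕ) : ℝ) * T) y‖ ^ 2 ≤ ‖y‖ ^ 2 :=
            pow_le_pow_left₀ (norm_nonneg _) h7 2
        _ ≤ 1 := norm_colsum_le hcol hξ
    have h9 : ∑ m : F, av (fun j : Fin K => ‖star (D m j) (D m j ξ)‖ ^ 2) ≤ 1 := by
      have h10 : ∀ m : F, av (fun j : Fin K => ‖star (D m j) (D m j ξ)‖ ^ 2) ≤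
          ‖C m ξ‖ ^ 2 := by
        intro m
        refine av_le (sq_nonneg _) fun j => ?_
        rw [hX, U_norm hU]
        refine pow_le_pow_left₀ (norm_nonneg _) ?_ 2
        have h11 : ‖star (C (m : ℤ))‖ ≤ 1 := by
          rw [norm_star]
          exact norm_le_one_of_col hcol m.2
        calc ‖star (C (m : ℤ)) (C m ξ)‖ ≤ ‖star (C (m : ℤ))‖ * ‖C m ξ‖ :=
              ContinuousLinearMap.le_opNorm _ _
          _ ≤ 1 * ‖C m ξ‖ := mul_le_mul_of_nonneg_right h11 (norm_nonneg _)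
          _ = ‖C m ξ‖ := one_mul _
      calc ∑ m : F, av (fun j : Fin K => ‖star (D m j) (D m j ξ)‖ ^ 2)
          ≤ ∑ m : F, ‖C m ξ‖ ^ 2 := Finset.sum_le_sum fun m _ => h10 m
        _ = ∑ m ∈ F, ‖C m ξ‖ ^ 2 := Finset.sum_coe_sort F (fun m => ‖C m ξ‖ ^ 2)
        _ ≤ ‖ξ‖ ^ 2 := hcol ξ
        _ = 1 := by rw [hξ]; norm_num
    linarith
  -- the off diagonal part
  have hoff : av (fun k : F → Fin K => ∑ m : F, ∑ n : F,
      (if m = n then 0 else ‖star (D m (k m)) (D n (k n) ξ)‖ ^ 2)) ≤ 2 := by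
    have h4 : (fun k : F → Fin K => ∑ m : F, ∑ n : F,
        (if m = n then 0 else ‖star (D m (k m)) (D n (k n) ξ)‖ ^ 2)) =
        fun k => ∑ n : F, ∑ m : F,
          (if m = n then 0 else ‖star (D m (k m)) (D n (k n) ξ)‖ ^ 2) := by
      funext k
      rw [Finset.sum_comm]
    rw [h4, av_sum]
    have h5 : ∀ n : F, av (fun k : F → Fin K => ∑ m : F,
        (if m = n then 0 else ‖star (D m (k m)) (D n (k n) ξ)‖ ^ 2)) ≤ 2 * ‖C n ξ‖ ^ 2 := by
      intro n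
      rw [av_sum]
      have h6 : ∀ m : F, av (fun k : F → Fin K =>
          (if m = n then 0 else ‖star (D m (k m)) (D n (k n) ξ)‖ ^ 2)) ≤
          av (fun k : F → Fin K => (K : ℝ)⁻¹ * ∑ j : Fin K,
            ‖star (D m j) (D n (k n) ξ)‖ ^ 2) := by
        intro m
        by_cases hmn : m = n
        · have h7 : (fun k : F → Fin K =>
              (if m = n then (0 : ℝ) else ‖star (D m (k m)) (D n (k n) ξ)‖ ^ 2)) = fun _ => 0 := by
            funext k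
            rw [if_pos hmn]
          rw [h7, av_zero]
          rw [← av_zero (α := F → Fin K)]
          exact av_mono fun k => by positivity
        · rw [av_update K hKpos _ m]
          refine le_of_eq ?_
          congr 1
          funext k
          congr 1
          refine Finset.sum_congr rfl fun j _ => ?_
          rw [if_neg hmn, Function.update_self, Function.update_of_ne (Ne.symm hmn)]
      refine (Finset.sum_le_sum fun m _ => h6 m).trans ?_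
      rw [← av_sum]
      refine av_le (by positivity) fun k => ?_
      have h8 := row_bound hU hn0 hrow (D n (k n) ξ)
      have h9 : ‖D n (k n) ξ‖ = ‖C n ξ‖ := by
        rw [hD]
        simp only
        rw [sgm_xi hU, U_norm hU]
      rw [h9] at h8
      refine le_trans (le_of_eq ?_) h8
      rw [← Finset.sum_coe_sort F]
      refine Finset.sum_congr rfl fun m _ => ?_
      congr 1
      refine Finset.sum_congr rfl fun j _ => ?_
      rw [hD]
      simp only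
      rw [star_sgm]
    calc ∑ n : F, av (fun k : F → Fin K => ∑ m : F,
          (if m = n then 0 else ‖star (D m (k m)) (D n (k n) ξ)‖ ^ 2))
        ≤ ∑ n : F, 2 * ‖C n ξ‖ ^ 2 := Finset.sum_le_sum fun n _ => h5 n
      _ = 2 * ∑ n ∈ F, ‖C n ξ‖ ^ 2 := by
          rw [← Finset.mul_sum, Finset.sum_coe_sort F (fun m => ‖C m ξ‖ ^ 2)]
      _ ≤ 2 * ‖ξ‖ ^ 2 := mul_le_mul_of_nonneg_left (hcol ξ) (by norm_num)
      _ = 2 := by rw [hξ]; norm_num
  linarith

end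

end Pool.Agent.W561.CB
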